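import Pool.Agent.H79.QF.Targets

/-!
# MP_0f8dca_lc, board qfg_modules, row NRM
-/

set_option autoImplicit false

namespace Pool.Agent.H1.QF.NRMf

open Finset Matrix Pool.Agent.H79.QF

theorem sum_eq {ι : Type} [Fintype ι] (y : ι → ℂ) :
    ((∑ i, ‖y i‖ ^ 2 : ℝ) : ℂ) = star y ⬝ᵥ y := by
  unfold dotProduct
  push_cast
  refine Finset.sum_congr rfl fun i _ => ?_
  rw [Pi.star_apply, ← Complex.conj_mul']
  rfl

theorem unit_sum {ι : Type} [Fintype ι] [DecidableEq ι] (U : Matrix ι ι ℂ)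
    (hU : U ∈ Matrix.unitaryGroup ι ℂ) (x : ι → ℂ) :
    ∑ i, ‖(U *ᵥ x) i‖ ^ 2 = ∑ i, ‖x i‖ ^ 2 := by
  have h1 : star U * U = 1 := (Matrix.mem_unitaryGroup_iff').1 hU
  have h2 : ((∑ i, ‖(U *ᵥ x) i‖ ^ 2 : ℝ) : ℂ) = ((∑ i, ‖x i‖ ^ 2 : ℝ) : ℂ) := by
    rw [sum_eq, sum_eq, Matrix.star_mulVec, Matrix.dotProduct_mulVec, Matrix.vecMul_vecMul,
      ← Matrix.star_eq_conjTranspose, h1, Matrix.vecMul_one]
  exact_mod_cast h2

theorem norm_phase {s : ℕ} (Q : GQ s) (v : Fin s → Prop) (i : Q.basis) : ‖Q.phase v i‖ = 1 := by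
  unfold GQ.phase
  rw [norm_prod]
  refine Finset.prod_eq_one fun u _ => ?_
  split_ifs
  · rw [norm_neg, norm_one]
  · rw [norm_one]

theorem pf_NRM : T_NRM := by
  intro s Q v j
  induction j with
  | zero =>
    show ∑ i, ‖(Q.U 0 *ᵥ Q.init) i‖ ^ 2 = 1
    rw [unit_sum _ (Q.unitary 0), Q.norm_init]
  | succ j ih =>
    show ∑ i, ‖(Q.U (j + 1) *ᵥ fun i => Q.phase v i * Q.state v j i) i‖ ^ 2 = 1
    rw [unit_sum _ (Q.unitary (j + 1)), ← ih]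
    refine Finset.sum_congr rfl fun i _ => ?_
    rw [norm_mul, norm_phase, one_mul]

end Pool.Agent.H1.QF.NRMf
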