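import Pool.Agent.H79.QF.Targets

/-!
# MP_0f8dca_lc, board qfg_modules, row SLC
-/

set_option autoImplicit false

namespace Pool.Agent.H1.QF.SLCf

open Finset Matrix Pool.Agent.H1.Mono Pool.Agent.H79.QF

variable {N s : ℕ}

/-- the number of true inputs among the first `j` ones, other than `o` -/
def cnt (A : Fin N → Bool) (o : Option (Fin N)) (j : ℕ) : ℕ :=
  (univ.filter fun i : Fin N => i.1 < j ∧ some i ≠ o ∧ A i = true).card

theorem cnt_step (A : Fin N → Bool) (o : Option (Fin N)) (j k : ℕ) (hk : 1 ≤ k) :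
    k ≤ cnt A o j ↔ ∃ i : Fin N, i.1 < j ∧ some i ≠ o ∧ A i = true ∧ k - 1 ≤ cnt A o i.1 := by
  constructor
  · intro h
    have hne : (univ.filter fun i : Fin N => i.1 < j ∧ some i ≠ o ∧ A i = true).Nonempty := by
      rw [← Finset.card_pos]
      exact lt_of_lt_of_le (by omega) h
    obtain ⟨i, hi, hmax⟩ := Finset.exists_max_image _ (fun i : Fin N => i.1) hne
    obtain ⟨h1, h2, h3⟩ := (Finset.mem_filter.1 hi).2
    refine ⟨i, h1, h2, h3, ?_⟩
    have h4 : (univ.filter fun i : Fin N => i.1 < j ∧ some i ≠ o ∧ A i = true).erase i ⊆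
        univ.filter fun i' : Fin N => i'.1 < i.1 ∧ some i' ≠ o ∧ A i' = true := by
      intro i' hi'
      obtain ⟨h5, h6⟩ := Finset.mem_erase.1 hi'
      have h7 := hmax i' h6
      have h8 : i'.1 ≠ i.1 := fun h => h5 (Fin.ext h)
      exact Finset.mem_filter.2 ⟨Finset.mem_univ _, by omega, (Finset.mem_filter.1 h6).2.2⟩
    have h5 := Finset.card_le_card h4
    rw [Finset.card_erase_of_mem hi] at h5
    unfold cnt at h ⊢
    omega
  · rintro ⟨i, h1, h2, h3, h4⟩
    have h5 : insert i (univ.filter fun i' : Fin N => i'.1 < i.1 ∧ some i' ≠ o ∧ A i' = true) ⊆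
        univ.filter fun i : Fin N => i.1 < j ∧ some i ≠ o ∧ A i = true := by
      intro i' hi'
      rcases Finset.mem_insert.1 hi' with rfl | h6
      · exact Finset.mem_filter.2 ⟨Finset.mem_univ _, h1, h2, h3⟩
      · obtain ⟨h7, h8⟩ := (Finset.mem_filter.1 h6).2
        exact Finset.mem_filter.2 ⟨Finset.mem_univ _, by omega, h8⟩
    have h6 := Finset.card_le_card h5
    rw [Finset.card_insert_of_notMem (by
      intro h
      exact absurd (Finset.mem_filter.1 h).2.1 (lt_irrefl _))] at h6
    unfold cnt at h4 ⊢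
    omega

theorem cnt_none (A : Fin N → Bool) :
    cnt A none N = (univ.filter fun i : Fin N => A i = true).card := by
  unfold cnt
  congr 1
  ext i
  simp

theorem cnt_some (A : Fin N → Bool) (i : Fin N) :
    (univ.filter fun i : Fin N => A i = true).card ≤ cnt A (some i) N ↔ ¬ A i = true := by
  have h0 : cnt A (some i) N = ((univ.filter fun i : Fin N => A i = true).erase i).card := by
    unfold cnt
    congr 1
    ext i'
    simp
  rw [h0]
  by_cases h : A i = true
  · have hi : i ∈ univ.filter fun i : Fin N => A i = true :=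
      Finset.mem_filter.2 ⟨Finset.mem_univ _, h⟩
    have h1 := Finset.card_erase_of_mem hi
    have h2 : 0 < (univ.filter fun i : Fin N => A i = true).card := Finset.card_pos.2 ⟨i, hi⟩
    constructor
    · intro h3
      omega
    · intro h3
      exact absurd h h3
  · have hi : i ∉ univ.filter fun i : Fin N => A i = true := by
      intro h1
      exact h (Finset.mem_filter.1 h1).2
    rw [Finset.erase_eq_of_notMem hi]
    exact ⟨fun _ => h, fun _ => le_rfl⟩

/-- the values of the gates of the double rail circuit for the slice `k` -/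
def SV (C : Circuit (Fin N) s) (A : Fin N → Bool) (k : ℕ) (t : Fin s) (b : Bool) : Prop :=
  if (b ^^ C.neg t) = true then
    if C.isAnd t = true then
      (∀ i ∈ C.ins t, A i = true) ∧ ∀ u : {u : Fin s // u ∈ C.gates t}, SV C A k u.1 true
    else (∃ i ∈ C.ins t, A i = true) ∨ ∃ u : {u : Fin s // u ∈ C.gates t}, SV C A k u.1 true
  else
    if C.isAnd t = true then
      (∃ i ∈ C.ins t, k ≤ cnt A (some i) N) ∨
        ∃ u : {u : Fin s // u ∈ C.gates t}, SV C A k u.1 false
    else (∀ i ∈ C.ins t, k ≤ cnt A (some i) N) ∧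
      ∀ u : {u : Fin s // u ∈ C.gates t}, SV C A k u.1 false
termination_by t
decreasing_by all_goals exact C.lt t u.1 u.2

theorem SV_slice (C : Circuit (Fin N) s) (A : Fin N → Bool) (t : Fin s) :
    (SV C A (univ.filter fun i : Fin N => A i = true).card t true ↔ C.Val A t) ∧
    (SV C A (univ.filter fun i : Fin N => A i = true).card t false ↔ ¬ C.Val A t) := by
  induction t using WellFoundedLT.induction with
  | ind t ih =>
    have i1 : ∀ u : {u : Fin s // u ∈ C.gates t},
        (SV C A (univ.filter fun i : Fin N => A i = true).card u.1 true ↔ C.Val A u.1) :=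
      fun u => (ih u.1 (C.lt t u.1 u.2)).1
    have i2 : ∀ u : {u : Fin s // u ∈ C.gates t},
        (SV C A (univ.filter fun i : Fin N => A i = true).card u.1 false ↔ ¬ C.Val A u.1) :=
      fun u => (ih u.1 (C.lt t u.1 u.2)).2
    constructor
    · rw [SV, Circuit.Val]
      simp only [i1, i2, cnt_some]
      rcases hn : C.neg t with _ | _ <;> rcases ha : C.isAnd t with _ | _ <;>
        simp [not_and_or, imp_iff_not_or]
    · rw [SV, Circuit.Val]
      simp only [i1, i2, cnt_some]
      rcases hn : C.neg t with _ | _ <;> rcases ha : C.isAnd t with _ | _ <;>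
        simp [not_and_or, imp_iff_not_or]

/-- the gates -/
abbrev Gt (N s : ℕ) : Type := (Option (Fin N) × Fin (N + 1) × Fin (N + 1)) ⊕
  ((Option (Fin N) × Fin N × Fin (N + 1)) ⊕ (Fin (N + 1) × Fin s × Bool))

/-- the kinds of the gates -/
def gAnd (C : Circuit (Fin N) s) : Gt N s → Bool
  | Sum.inl x => decide (x.2.2 = 0)
  | Sum.inr (Sum.inl _) => true
  | Sum.inr (Sum.inr x) => if (x.2.2 ^^ C.neg x.2.1) = true then C.isAnd x.2.1 else
      !(C.isAnd x.2.1)

/-- the inputs of the gates -/
def gIns (C : Circuit (Fin N) s) : Gt N s → Finset (Fin N)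
  | Sum.inl _ => ∅
  | Sum.inr (Sum.inl x) => {x.2.1}
  | Sum.inr (Sum.inr x) => if (x.2.2 ^^ C.neg x.2.1) = true then C.ins x.2.1 else ∅

/-- the predecessor in `Fin (N + 1)` -/
def pd (k : Fin (N + 1)) : Fin (N + 1) := ⟨k.1 - 1, lt_of_le_of_lt (Nat.sub_le _ _) k.2⟩

/-- the gates which are fed into the gates -/
def gGates (C : Circuit (Fin N) s) : Gt N s → Finset (Gt N s)
  | Sum.inl x => if x.2.2 = 0 then ∅ else
      ((univ : Finset (Fin N)).filter fun i => i.1 < x.2.1.1 ∧ some i ≠ x.1).image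
        fun i => Sum.inr (Sum.inl (x.1, i, x.2.2))
  | Sum.inr (Sum.inl x) => {Sum.inl (x.1, x.2.1.castSucc, pd x.2.2)}
  | Sum.inr (Sum.inr x) => if (x.2.2 ^^ C.neg x.2.1) = true then
      (C.gates x.2.1).image fun u => Sum.inr (Sum.inr (x.1, u, true))
      else ((C.ins x.2.1).image fun i => Sum.inl (some i, Fin.last N, x.1)) ∪
        (C.gates x.2.1).image fun u => Sum.inr (Sum.inr (x.1, u, false))

/-- the rank -/
def grk : Gt N s → ℕ
  | Sum.inl x => 2 * x.2.1.1
  | Sum.inr (Sum.inl x) => 2 * x.2.1.1 + 1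
  | Sum.inr (Sum.inr x) => 2 * N + 1 + x.2.1.1

/-- the values of the gates -/
def gval (C : Circuit (Fin N) s) (A : Fin N → Bool) : Gt N s → Prop
  | Sum.inl x => x.2.2.1 ≤ cnt A x.1 x.2.1.1
  | Sum.inr (Sum.inl x) => A x.2.1 = true ∧ x.2.2.1 - 1 ≤ cnt A x.1 x.2.1.1
  | Sum.inr (Sum.inr x) => SV C A x.1.1 x.2.1 x.2.2

theorem grk_lt (C : Circuit (Fin N) s) (g : Gt N s) : ∀ h ∈ gGates C g, grk h < grk g := by
  rcases g with x | x | x
  · intro h hh
    unfold gGates at hh
    simp only at hh
    split_ifs at hh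
    · simp at hh
    · obtain ⟨i, hi, rfl⟩ := Finset.mem_image.1 hh
      have h1 := (Finset.mem_filter.1 hi).2.1
      show 2 * i.1 + 1 < 2 * x.2.1.1
      omega
  · intro h hh
    unfold gGates at hh
    simp only [Finset.mem_singleton] at hh
    subst hh
    show 2 * x.2.1.1 < 2 * x.2.1.1 + 1
    omega
  · intro h hh
    unfold gGates at hh
    simp only at hh
    split_ifs at hh
    · obtain ⟨u, hu, rfl⟩ := Finset.mem_image.1 hh
      have h1 : u.1 < x.2.1.1 := C.lt _ u hu
      show 2 * N + 1 + u.1 < 2 * N + 1 + x.2.1.1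
      omega
    · rcases Finset.mem_union.1 hh with hh | hh
      · obtain ⟨i, _, rfl⟩ := Finset.mem_image.1 hh
        show 2 * N < 2 * N + 1 + x.2.1.1
        omega
      · obtain ⟨u, hu, rfl⟩ := Finset.mem_image.1 hh
        have h1 : u.1 < x.2.1.1 := C.lt _ u hu
        show 2 * N + 1 + u.1 < 2 * N + 1 + x.2.1.1
        omega

theorem gval_eq (C : Circuit (Fin N) s) (A : Fin N → Bool) (g : Gt N s) :
    gval C A g ↔ if gAnd C g = true then
      (∀ i ∈ gIns C g, A i = true) ∧ ∀ h ∈ gGates C g, gval C A h else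
      (∃ i ∈ gIns C g, A i = true) ∨ ∃ h ∈ gGates C g, gval C A h := by
  rcases g with x | x | x
  · by_cases hx : x.2.2 = 0
    · have h1 : gAnd C (Sum.inl x) = true := by
        show decide (x.2.2 = 0) = true
        simp [hx]
      have h2 : gGates C (Sum.inl x) = ∅ := by
        unfold gGates
        simp only [hx, if_true]
      rw [if_pos h1, h2]
      have h3 : gval C A (Sum.inl x) := by
        show x.2.2.1 ≤ cnt A x.1 x.2.1.1
        rw [hx]
        exact Nat.zero_le _
      simp [h3, gIns]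
    · have h1 : ¬ gAnd C (Sum.inl x) = true := by
        show ¬ decide (x.2.2 = 0) = true
        simp [hx]
      have h2 : gGates C (Sum.inl x) =
          ((univ : Finset (Fin N)).filter fun i => i.1 < x.2.1.1 ∧ some i ≠ x.1).image
          fun i => Sum.inr (Sum.inl (x.1, i, x.2.2)) := by
        show (if x.2.2 = 0 then ∅ else _) = _
        rw [if_neg hx]
      have hx1 : 1 ≤ x.2.2.1 := by
        by_contra h
        refine hx (Fin.ext ?_)
        have h4 : x.2.2.1 = 0 := by omega
        rw [h4]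
        rfl
      rw [if_neg h1, h2]
      show x.2.2.1 ≤ cnt A x.1 x.2.1.1 ↔ _
      rw [cnt_step A x.1 x.2.1.1 x.2.2.1 hx1]
      constructor
      · rintro ⟨i, h3, h4, h5, h6⟩
        exact Or.inr ⟨_, Finset.mem_image.2 ⟨i, Finset.mem_filter.2
          ⟨Finset.mem_univ _, h3, h4⟩, rfl⟩, h5, h6⟩
      · rintro (⟨i, hi, _⟩ | ⟨h, hh, hv⟩)
        · exact absurd hi (Finset.notMem_empty _)
        · obtain ⟨i, hi, rfl⟩ := Finset.mem_image.1 hh
          obtain ⟨h3, h4⟩ := (Finset.mem_filter.1 hi).2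
          exact ⟨i, h3, h4, hv.1, hv.2⟩
  · rw [if_pos (show gAnd C (Sum.inr (Sum.inl x)) = true from rfl)]
    show A x.2.1 = true ∧ x.2.2.1 - 1 ≤ cnt A x.1 x.2.1.1 ↔
      (∀ i ∈ ({x.2.1} : Finset (Fin N)), A i = true) ∧
      ∀ h ∈ ({Sum.inl (x.1, x.2.1.castSucc, pd x.2.2)} : Finset (Gt N s)), gval C A h
    simp only [Finset.mem_singleton, forall_eq]
    rfl
  · by_cases hx : (x.2.2 ^^ C.neg x.2.1) = true
    · have h1 : gAnd C (Sum.inr (Sum.inr x)) = C.isAnd x.2.1 := by
        show (if _ then _ else _) = _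
        rw [if_pos hx]
      have h2 : gIns C (Sum.inr (Sum.inr x)) = C.ins x.2.1 := by
        show (if _ then _ else _) = _
        rw [if_pos hx]
      have h3 : gGates C (Sum.inr (Sum.inr x)) =
          (C.gates x.2.1).image fun u => Sum.inr (Sum.inr (x.1, u, true)) := by
        show (if _ then _ else _) = _
        rw [if_pos hx]
      rw [h1, h2, h3]
      show SV C A x.1.1 x.2.1 x.2.2 ↔ _
      rw [SV, if_pos hx]
      by_cases ha : C.isAnd x.2.1 = true
      · rw [if_pos ha, if_pos ha]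
        refine and_congr Iff.rfl ?_
        constructor
        · intro h h' hh'
          obtain ⟨u, hu, rfl⟩ := Finset.mem_image.1 hh'
          exact h ⟨u, hu⟩
        · intro h u
          exact h _ (Finset.mem_image.2 ⟨u.1, u.2, rfl⟩)
      · rw [if_neg ha, if_neg ha]
        refine or_congr Iff.rfl ?_
        constructor
        · rintro ⟨u, hu⟩
          exact ⟨_, Finset.mem_image.2 ⟨u.1, u.2, rfl⟩, hu⟩
        · rintro ⟨h', hh', hv⟩
          obtain ⟨u, hu, rfl⟩ := Finset.mem_image.1 hh'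
          exact ⟨⟨u, hu⟩, hv⟩
    · have h1 : gAnd C (Sum.inr (Sum.inr x)) = !(C.isAnd x.2.1) := by
        show (if _ then _ else _) = _
        rw [if_neg hx]
      have h2 : gIns C (Sum.inr (Sum.inr x)) = ∅ := by
        show (if _ then _ else _) = _
        rw [if_neg hx]
      have h3 : gGates C (Sum.inr (Sum.inr x)) =
          ((C.ins x.2.1).image fun i => Sum.inl (some i, Fin.last N, x.1)) ∪
          (C.gates x.2.1).image fun u => Sum.inr (Sum.inr (x.1, u, false)) := by
        show (if _ then _ else _) = _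
        rw [if_neg hx]
      rw [h1, h2, h3]
      show SV C A x.1.1 x.2.1 x.2.2 ↔ _
      rw [SV, if_neg hx]
      by_cases ha : C.isAnd x.2.1 = true
      · rw [if_pos ha, if_neg (by simp [ha])]
        constructor
        · rintro (⟨i, hi, hv⟩ | ⟨u, hu⟩)
          · exact Or.inr ⟨_, Finset.mem_union_left _ (Finset.mem_image.2 ⟨i, hi, rfl⟩), hv⟩
          · exact Or.inr ⟨_, Finset.mem_union_right _ (Finset.mem_image.2 ⟨u.1, u.2, rfl⟩), hu⟩
        · rintro (⟨i, hi, _⟩ | ⟨h', hh', hv⟩)
          · exact absurd hi (Finset.notMem_empty _)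
          · rcases Finset.mem_union.1 hh' with hh' | hh'
            · obtain ⟨i, hi, rfl⟩ := Finset.mem_image.1 hh'
              exact Or.inl ⟨i, hi, hv⟩
            · obtain ⟨u, hu, rfl⟩ := Finset.mem_image.1 hh'
              exact Or.inr ⟨⟨u, hu⟩, hv⟩
      · rw [if_neg ha, if_pos (by simp [ha])]
        constructor
        · rintro ⟨hi, hu⟩
          refine ⟨fun i hi => absurd hi (Finset.notMem_empty _), fun h' hh' => ?_⟩
          rcases Finset.mem_union.1 hh' with hh' | hh'
          · obtain ⟨i, hi', rfl⟩ := Finset.mem_image.1 hh'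
            exact hi i hi'
          · obtain ⟨u, hu', rfl⟩ := Finset.mem_image.1 hh'
            exact hu ⟨u, hu'⟩
        · rintro ⟨_, hh⟩
          exact ⟨fun i hi => hh _ (Finset.mem_union_left _ (Finset.mem_image.2 ⟨i, hi, rfl⟩)),
            fun u => hh _ (Finset.mem_union_right _ (Finset.mem_image.2 ⟨u.1, u.2, rfl⟩))⟩

theorem pf_SLC (hBLD : T_BLD) : T_SLC := by
  intro N s C
  haveI : Nonempty (Gt N s) := ⟨Sum.inl (none, 0, 0)⟩
  obtain ⟨C', e, hC'⟩ := hBLD (Fin N) (Gt N s) (gAnd C) (gIns C) (gGates C) grk (grk_lt C)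
    (gval C) (gval_eq C)
  have hle : ∀ A : Fin N → Bool, (univ.filter fun i : Fin N => A i = true).card ≤ N := by
    intro A
    exact (Finset.card_filter_le _ _).trans (by simp)
  refine ⟨Fintype.card (Gt N s), C',
    fun k => e (Sum.inl (none, Fin.last N, Fin.ofNat (N + 1) k)),
    fun k => e (Sum.inr (Sum.inr (Fin.ofNat (N + 1) k, C.out, true))), ?_, ?_, ?_⟩
  · simp only [Fintype.card_sum, Fintype.card_prod, Fintype.card_option, Fintype.card_fin,
      Fintype.card_bool]
    nlinarith [Nat.zero_le N, Nat.zero_le (N * N), Nat.zero_le (N * N * N)]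
  · intro A k hk
    rw [hC']
    show (Fin.ofNat (N + 1) k).1 ≤ cnt A none N ↔ _
    rw [Fin.val_ofNat, Nat.mod_eq_of_lt (by omega), cnt_none]
  · intro A
    rw [hC']
    show SV C A (Fin.ofNat (N + 1) _).1 C.out true ↔ _
    rw [Fin.val_ofNat, Nat.mod_eq_of_lt (by have := hle A; omega)]
    exact (SV_slice C A C.out).1

end Pool.Agent.H1.QF.SLCf
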